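import Pool.Agent.L0h99.MN.Stm2

/-! MP_974d84_co, project MD, module CMP: minors of minors are minors -/

set_option autoImplicit false

namespace Pool.Agent.H50.MD

open Finset Pool.Agent.L0h99.MN Pool.Agent.L0h99.MD

theorem CMP : St_CMP := by
  classical
  intro V _ _ R k B M _ hd hB hM hK
  obtain ⟨C, hC, hCd, hCj⟩ := hK
  refine ⟨fun i => (C i).biUnion B, ?_, ?_, ?_⟩
  · intro i j hij
    rw [Finset.disjoint_left]
    intro x hx hy
    obtain ⟨a, ha, hxa⟩ := Finset.mem_biUnion.1 hx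
    obtain ⟨b, hb, hxb⟩ := Finset.mem_biUnion.1 hy
    by_cases hab : a = b
    · subst hab
      exact Finset.disjoint_left.1 (hCd i j hij) ha hb
    · exact Finset.disjoint_left.1 (hd a b hab) hxa hxb
  · intro i
    obtain ⟨hne, hcut⟩ := hC i
    refine ⟨?_, ?_⟩
    · obtain ⟨a, ha⟩ := hne
      obtain ⟨x, hx⟩ := (hB a).1
      exact ⟨x, Finset.mem_biUnion.2 ⟨a, ha, hx⟩⟩
    · intro X hX hXne hXD
      by_cases hcase : ∃ a ∈ C i, (X ∩ B a).Nonempty ∧ X ∩ B a ≠ B a
      · obtain ⟨a, ha, h1, h2⟩ := hcase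
        obtain ⟨p, hp, q, hq, hpq⟩ := (hB a).2 (X ∩ B a) Finset.inter_subset_right h1 h2
        rw [Finset.mem_inter] at hp
        rw [Finset.mem_sdiff, Finset.mem_inter] at hq
        refine ⟨p, hp.1, q, ?_, hpq⟩
        rw [Finset.mem_sdiff]
        exact ⟨Finset.mem_biUnion.2 ⟨a, ha, hq.1⟩, fun h => hq.2 ⟨h, hq.1⟩⟩
      · push Not at hcase
        have key : ∀ a ∈ C i, ∀ x ∈ X, x ∈ B a → B a ⊆ X := by
          intro a ha x hx hxa
          have h1 := hcase a ha ⟨x, Finset.mem_inter.2 ⟨hx, hxa⟩⟩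
          rw [← h1]
          exact Finset.inter_subset_left
        have hY : ((C i).filter fun a => B a ⊆ X).Nonempty := by
          obtain ⟨x, hx⟩ := hXne
          obtain ⟨a, ha, hxa⟩ := Finset.mem_biUnion.1 (hX hx)
          exact ⟨a, Finset.mem_filter.2 ⟨ha, key a ha x hx hxa⟩⟩
        have hY2 : ((C i).filter fun a => B a ⊆ X) ≠ C i := by
          intro h
          apply hXD
          refine Finset.Subset.antisymm hX ?_
          intro x hx
          obtain ⟨a, ha, hxa⟩ := Finset.mem_biUnion.1 hx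
          rw [← h] at ha
          exact (Finset.mem_filter.1 ha).2 hxa
        obtain ⟨a, ha, b, hb, hab⟩ := hcut _ (Finset.filter_subset _ _) hY hY2
        obtain ⟨p, hp, q, hq, hpq⟩ := hM a b hab
        rw [Finset.mem_filter] at ha
        rw [Finset.mem_sdiff, Finset.mem_filter] at hb
        refine ⟨p, ha.2 hp, q, ?_, hpq⟩
        rw [Finset.mem_sdiff]
        exact ⟨Finset.mem_biUnion.2 ⟨b, hb.1, hq⟩,
          fun h => hb.2 ⟨hb.1, key b hb.1 q h hq⟩⟩
  · intro i j hij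
    obtain ⟨x, hx, y, hy, hxy⟩ := hCj i j hij
    obtain ⟨p, hp, q, hq, hpq⟩ := hM x y hxy
    exact ⟨p, Finset.mem_biUnion.2 ⟨x, hx, hp⟩, q, Finset.mem_biUnion.2 ⟨y, hy, hq⟩, hpq⟩

end Pool.Agent.H50.MD
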