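import Pool.Agent.L0h99.MN.Stm2

/-! MP_974d84_co, project MD, module MAD: Mader's theorem for `K_6` from the other modules -/

set_option autoImplicit false

namespace Pool.Agent.H50.MD

open Finset Pool.Agent.L0h99.MN Pool.Agent.L0h99.MD

theorem MAD (hMON : St_MON) (hIDU : St_IDU) (hEIN : St_EIN) (hEVN : St_EVN) (hCTK : St_CTK)
    (hCTE : St_CTE) (hTRI : St_TRI) (hDEL : St_DEL) (hISO : St_ISO) (hLOW : St_LOW) (hVF : St_VF)
    (hPKF : St_PKF) (hLNK : St_LNK) (hLCF : St_LCF) (hLCS : St_LCS) (hCLA : St_CLA)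
    (hTAB : St_TAB) (hTFR : St_TFR) (hTPT : St_TPT) (hSEP : St_SEP) (hCOM : St_COM)
    (hFUL : St_FUL) (hEXM : St_EXM) : St_MAD := by
  intro V iV jV G h4 hE
  by_contra hK
  obtain ⟨V', i, j, G', hm⟩ := hEXM ⟨V, iV, jV, G, h4, hE, hK⟩
  clear hK hE h4 G jV iV V
  letI := i
  letI := j
  have tri := hTRI hCTK hCTE V' G' hm
  have del := hDEL hMON hEVN V' G' hm
  have iso := hISO hIDU hEIN V' G' hm
  obtain ⟨hdeg, v, hv5, hv7⟩ := hLOW V' G' tri iso del
  have hS : ∀ s ∈ N G' v, 4 ≤ (N G' s ∩ N G' v).card := by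
    intro s hs
    have h1 := tri v s (mem_N.1 hs)
    rwa [Finset.inter_comm] at h1
  have hloc : Loc G' (N G' v) := by
    have h567 : (N G' v).card = 5 ∨ (N G' v).card = 6 ∨ (N G' v).card = 7 := by omega
    rcases h567 with h | h | h
    · exact hLCF V' G' _ h hS
    · exact hLCS V' G' _ h hS
    · rcases hCLA V' G' _ h hS with h1 | h1 | h1 | h1 | h1
      · exact Or.inl (hTFR hTAB V' G' _ (Or.inl h1))
      · exact Or.inl (hTFR hTAB V' G' _ (Or.inr (Or.inl h1)))
      · exact Or.inl (hTFR hTAB V' G' _ (Or.inr (Or.inr (Or.inl h1))))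
      · exact Or.inl (hTFR hTAB V' G' _ (Or.inr (Or.inr (Or.inr h1))))
      · exact hTPT hPKF V' G' _ h1
  obtain ⟨hb4, hbE, hbK⟩ := hm.bad
  rcases hloc with h5 | ⟨hee, hpat⟩
  · exact hbK (hVF V' G' v h5)
  · have hw : ∃ w, w ∉ insert v (N G' v) := by
      by_contra hno
      push Not at hno
      have h1 := hFUL V' G' v hno hee
      omega
    obtain ⟨w, hw⟩ := hw
    obtain ⟨D, hDc, hwD, hDU, hDcl⟩ := hCOM V' G' (insert v (N G' v)) w hw
    classical
    have hvD : v ∉ D := fun h => Finset.disjoint_left.1 hDU h (Finset.mem_insert_self _ _)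
    have hvK : ∀ d ∈ D, ¬ G'.Adj d v := by
      intro d hd hdv
      exact Finset.disjoint_left.1 hDU hd (Finset.mem_insert_of_mem (mem_N.2 hdv.symm))
    have hmemS : ∀ x, x ∉ D → (∃ d ∈ D, G'.Adj d x) → x ∈ N G' v := by
      rintro x hx ⟨d, hd, hdx⟩
      rcases hDcl d hd x hdx with h1 | h1
      · exact absurd h1 hx
      · rcases Finset.mem_insert.1 h1 with h2 | h2
        · subst h2
          exact absurd hdx (hvK d hd)
        · exact h2
    refine hSEP hIDU hEIN hEVN V' G' D (univ.filter fun x => x ∉ D ∧ ∃ d ∈ D, G'.Adj d x) v hm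
      hdeg ⟨w, hwD⟩ ?_ hvD ?_ ?_
    · intro x
      simp
    · intro h
      rw [Finset.mem_filter] at h
      obtain ⟨d, hd, hdv⟩ := h.2.2
      exact hvK d hd hdv
    · intro x hx y hy hxy
      rw [Finset.mem_filter] at hx hy
      by_contra hnadj
      have hxS := hmemS x hx.2.1 hx.2.2
      have hyS := hmemS y hy.2.1 hy.2.2
      obtain ⟨d, hd, hdx⟩ := hx.2.2
      obtain ⟨e, he, hey⟩ := hy.2.2
      exact hbK (hLNK V' G' v x y D hxS hyS hxy (hpat x hxS y hyS hxy hnadj) hDc hDU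
        ⟨d, hd, hdx.symm⟩ ⟨e, he, hey.symm⟩)

end Pool.Agent.H50.MD
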